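import Pool.Agent.H798.BV.Stm2
import Pool.Agent.H376.BV.Avg

/-! Project BV (helper798), task B2-AVP (helper25): `∑ χ_p(w_k) = O(m a²)` for `2 < p ≤ 3`. -/

set_option autoImplicit false

namespace Pool.Agent.H25.BV

open Pool.Agent.H798.BV
open scoped ComplexConjugate

/-- the Bregman distances are nonnegative in the mean -/
lemma breg_nonneg {m : ℕ} {p a : ℝ} (hB2 : ∀ z w : ℂ,
      ‖w‖ ^ p + p * ((starRingEnd ℂ) (chi p w) * (z - w)).re ≤ ‖z‖ ^ p)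
    (S : Fin (m + 1) → ℝ) (z : Fin (m + 1) → ℂ) (w : ℂ)
    (hS0 : ∀ j, 0 ≤ S j) (hS1 : ∑ j, S j = 1) (hw : w = ∑ j, (S j : ℂ) * z j) :
    ‖w - a‖ ^ p ≤ ∑ j, S j * ‖z j - a‖ ^ p := by
  have hS1c : ∑ j, (S j : ℂ) = 1 := by exact_mod_cast congrArg (fun x : ℝ => (x : ℂ)) hS1
  have h0 : ∑ j, (S j : ℂ) * (z j - w) = 0 := by
    simp only [mul_sub, Finset.sum_sub_distrib]
    rw [← Finset.sum_mul, hS1c, ← hw, one_mul, sub_self]
  have h1 : ∀ j ∈ Finset.univ, S j * ‖w - a‖ ^ p +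
      p * (conj (chi p (w - a)) * ((S j : ℂ) * (z j - w))).re ≤ S j * ‖z j - a‖ ^ p := by
    intro j _
    have h2 := hB2 (z j - a) (w - a)
    have e1 : z j - a - (w - a) = z j - w := by ring
    rw [e1] at h2
    have h3 := mul_le_mul_of_nonneg_left h2 (hS0 j)
    have e4 : (conj (chi p (w - a)) * ((S j : ℂ) * (z j - w))).re =
        S j * (conj (chi p (w - a)) * (z j - w)).re := by
      rw [mul_left_comm, Complex.re_ofReal_mul]
    rw [e4]
    linarith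
  have h2 := Finset.sum_le_sum h1
  rw [Finset.sum_add_distrib, ← Finset.sum_mul, hS1, one_mul, ← Finset.mul_sum,
    ← Complex.re_sum, ← Finset.mul_sum, h0, mul_zero, Complex.zero_re, mul_zero, add_zero] at h2
  exact h2

lemma norm_chi {p : ℝ} (hp : 1 < p) (z : ℂ) : ‖chi p z‖ = ‖z‖ ^ (p - 1) := by
  unfold chi
  rw [norm_mul, Complex.norm_real, Real.norm_of_nonneg (Real.rpow_nonneg (norm_nonneg _) _)]
  rcases (norm_nonneg z).eq_or_lt with h | h
  · rw [← h, mul_zero, Real.zero_rpow (by linarith)]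
  · have e : p - 1 = (p - 2) + 1 := by ring
    rw [e, Real.rpow_add h, Real.rpow_one]

lemma rpow_le_one_add {t s p : ℝ} (ht : 0 ≤ t) (hs : 0 ≤ s) (hsp : s ≤ p) : t ^ s ≤ 1 + t ^ p := by
  rcases le_total t 1 with h | h
  · have h1 := Real.rpow_le_one ht h hs
    have h2 := Real.rpow_nonneg ht p
    linarith
  · have h1 := Real.rpow_le_rpow_of_exponent_le h hsp
    linarith

lemma norm_rpow_le {p a : ℝ} (hp : 0 ≤ p) (hp3 : p ≤ 3) (ha0 : 0 ≤ a) (ha : a ≤ 1) (z : ℂ) :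
    ‖z‖ ^ p ≤ 8 * (‖z - a‖ ^ p + 1) := by
  have h1 : ‖z‖ ≤ ‖z - a‖ + 1 := by
    calc ‖z‖ = ‖(z - a) + a‖ := by rw [sub_add_cancel]
      _ ≤ ‖z - a‖ + ‖(a : ℂ)‖ := norm_add_le _ _
      _ ≤ ‖z - a‖ + 1 := by
        rw [Complex.norm_real, Real.norm_of_nonneg ha0]
        linarith
  have h2 : ‖z‖ ≤ 2 * max ‖z - a‖ 1 := by
    have := le_max_left ‖z - a‖ 1
    have := le_max_right ‖z - a‖ 1
    linarith
  have hm0 : 0 ≤ max ‖z - a‖ 1 := le_max_of_le_right zero_le_one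
  have h3 : ‖z‖ ^ p ≤ 2 ^ p * (max ‖z - a‖ 1) ^ p := by
    rw [← Real.mul_rpow (by norm_num) hm0]
    exact Real.rpow_le_rpow (norm_nonneg _) h2 hp
  have h4 : (2 : ℝ) ^ p ≤ 8 := by
    calc (2 : ℝ) ^ p ≤ 2 ^ (3 : ℝ) := Real.rpow_le_rpow_of_exponent_le (by norm_num) hp3
      _ = 8 := by norm_num
  have h5 : (max ‖z - a‖ 1) ^ p ≤ ‖z - a‖ ^ p + 1 := by
    rcases le_total ‖z - a‖ 1 with h | h
    · rw [max_eq_right h, Real.one_rpow]
      have := Real.rpow_nonneg (norm_nonneg (z - a)) p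
      linarith
    · rw [max_eq_left h]
      linarith
  calc ‖z‖ ^ p ≤ 2 ^ p * (max ‖z - a‖ 1) ^ p := h3
    _ ≤ 8 * (‖z - a‖ ^ p + 1) := mul_le_mul h4 h5 (Real.rpow_nonneg hm0 p) (by norm_num)

theorem t_AVP (h1 : S_PM) (h2 : S_B1P) (h3 : S_B2P) (h4 : S_BDP) (h5 : S_PTW) : S_AVP := by
  intro p hp2 hp3
  obtain ⟨K1, hK1, hBD⟩ := h4 p hp2 hp3
  obtain ⟨K2, hK2, hPT⟩ := h5 p hp2 hp3 1 one_pos
  refine ⟨9 * (K1 + 8 + 18 * K2), by positivity, ?_⟩
  intro m hm z w a hcrit ha0 ha4 hz hchi hwa hl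
  obtain ⟨S, hS0, hS1, hS2, hSw⟩ := h1 m z w hcrit
  have hm0 : (0 : ℝ) < m := by exact_mod_cast hm
  have hp0 : 0 < p := by linarith
  have hp1 : 1 < p := by linarith
  have hap0 : 0 ≤ a ^ p := Real.rpow_nonneg ha0 p
  have hap : a ^ p ≤ a ^ 2 := by
    rcases ha0.eq_or_lt with h | h
    · rw [← h, Real.zero_rpow hp0.ne']
      norm_num
    · rw [← Real.rpow_natCast a 2]
      exact Real.rpow_le_rpow_of_exponent_ge h (by linarith) (by
        push_cast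
        linarith)
  set r : Fin m → ℝ := fun k => ‖w k - a‖ with hr
  have hr0 : ∀ k, 0 < r k := fun k => norm_pos_iff.2 (sub_ne_zero.2 (hwa k))
  set Θ : Fin m → ℝ := fun k => ((r k) ^ p - 1) + p / 2 * (((r k) ^ 2)⁻¹ - 1) with hΘ
  set A : Fin m → ℝ := fun k => ∑ j, S k j * ‖z j - a‖ ^ p with hA
  have hΘ0 : ∀ k, 0 ≤ Θ k := fun k => (hPT (r k) (Θ k) (hr0 k) rfl).1
  have hΘ1 : ∀ k, r k < 1 / 2 → ((r k) ^ 2)⁻¹ ≤ K2 * Θ k :=
    fun k => (hPT (r k) (Θ k) (hr0 k) rfl).2.2.2.1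
  have hb0 : ∀ k, (r k) ^ p ≤ A k := fun k =>
    breg_nonneg (h3 p hp1) (S k) z (w k) (hS0 k) (hS1 k) (hSw k)
  -- (B1P)
  have hB1 : ∑ j, ‖z j - a‖ ^ p ≤ (m + 1) * (1 + 9 * a ^ 2) := by
    have e1 : ∀ j ∈ Finset.univ, ‖z j - a‖ ^ p ≤ ‖z j‖ ^ p - p * (conj (chi p (z j)) * a).re +
        (3 * a ^ 2 * (1 + ‖z j‖ ^ p) + 3 * a ^ 2) := by
      intro j _
      have h6 := h2 p hp2.le hp3 (z j) a
      rw [Complex.norm_real, Real.norm_of_nonneg ha0] at h6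
      have h7 : ‖z j‖ ^ (p - 2) ≤ 1 + ‖z j‖ ^ p :=
        rpow_le_one_add (norm_nonneg _) (by linarith) (by linarith)
      have h8 : ‖z j‖ ^ (p - 2) * a ^ 2 ≤ (1 + ‖z j‖ ^ p) * a ^ 2 :=
        mul_le_mul_of_nonneg_right h7 (sq_nonneg a)
      have h9 : p * (p - 1) / 2 ≤ 3 := by nlinarith
      have h10 : 0 ≤ p * (p - 1) / 2 := by nlinarith
      have h11 : 0 ≤ ‖z j‖ ^ p := Real.rpow_nonneg (norm_nonneg _) _
      have h12 : 0 ≤ (1 + ‖z j‖ ^ p) * a ^ 2 + a ^ 2 := by positivity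
      have h13 : p * (p - 1) / 2 * (‖z j‖ ^ (p - 2) * a ^ 2 + a ^ p) ≤
          3 * ((1 + ‖z j‖ ^ p) * a ^ 2 + a ^ 2) := by
        calc p * (p - 1) / 2 * (‖z j‖ ^ (p - 2) * a ^ 2 + a ^ p)
            ≤ p * (p - 1) / 2 * ((1 + ‖z j‖ ^ p) * a ^ 2 + a ^ 2) :=
              mul_le_mul_of_nonneg_left (by linarith) h10
          _ ≤ 3 * ((1 + ‖z j‖ ^ p) * a ^ 2 + a ^ 2) := mul_le_mul_of_nonneg_right h9 h12
      linarith
    refine (Finset.sum_le_sum e1).trans (le_of_eq ?_)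
    rw [Finset.sum_add_distrib, Finset.sum_sub_distrib, hz, ← Finset.mul_sum, ← Complex.re_sum,
      ← Finset.sum_mul, ← map_sum, hchi, map_zero, zero_mul, Complex.zero_re, mul_zero, sub_zero,
      Finset.sum_add_distrib, ← Finset.mul_sum, Finset.sum_add_distrib, hz, Finset.sum_const,
      Finset.sum_const, Finset.card_univ, Fintype.card_fin, nsmul_eq_mul, nsmul_eq_mul]
    push_cast
    ring
  have hsum : ∑ k, A k = (m : ℝ) / (m + 1) * ∑ j, ‖z j - a‖ ^ p := by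
    simp only [hA]
    rw [Finset.sum_comm, Finset.mul_sum]
    refine Finset.sum_congr rfl fun j _ => ?_
    rw [← Finset.sum_mul, hS2]
  have hsumle : ∑ k, A k ≤ m * (1 + 9 * a ^ 2) := by
    rw [hsum]
    refine (mul_le_mul_of_nonneg_left hB1 (by positivity)).trans (le_of_eq ?_)
    field_simp
  have hsumc : ∑ k, ∑ j, (S k j : ℂ) * chi p (z j) = 0 := by
    rw [Finset.sum_comm]
    have : ∀ j ∈ Finset.univ, ∑ k, (S k j : ℂ) * chi p (z j) =
        (((m : ℝ) / (m + 1) : ℝ) : ℂ) * chi p (z j) := by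
      intro j _
      rw [← Finset.sum_mul, ← hS2 j]
      push_cast
      rfl
    rw [Finset.sum_congr rfl this, ← Finset.mul_sum, hchi, mul_zero]
  -- the sum of `Θ`
  have hl' : ∑ k, ((r k) ^ 2)⁻¹ ≤ m := by
    refine le_trans (le_of_eq ?_) hl
    refine Finset.sum_congr rfl fun k _ => ?_
    simp only [hr]
    rw [norm_inv, inv_pow, norm_sub_rev]
  have hrp : ∑ k, (r k) ^ p = ∑ k, Θ k + m - p / 2 * (∑ k, ((r k) ^ 2)⁻¹ - m) := by
    simp only [hΘ]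
    rw [Finset.sum_add_distrib, Finset.sum_sub_distrib, ← Finset.mul_sum, Finset.sum_sub_distrib,
      Finset.sum_const, Finset.card_univ, Fintype.card_fin, nsmul_eq_mul, mul_one]
    ring
  have hrp2 : ∑ k, Θ k + m ≤ ∑ k, (r k) ^ p := by
    rw [hrp]
    have : 0 ≤ p / 2 * (m - ∑ k, ((r k) ^ 2)⁻¹) := mul_nonneg (by positivity) (by linarith)
    linarith
  have htot : ∑ k, (A k - (r k) ^ p) + ∑ k, Θ k ≤ 9 * (m * a ^ 2) := by
    rw [Finset.sum_sub_distrib]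
    linarith
  -- one term
  have hD : ∀ k, ‖∑ j, (S k j : ℂ) * chi p (z j) - chi p (w k)‖ ≤
      (K1 + 8 + 18 * K2) * ((A k - (r k) ^ p) + Θ k) := by
    intro k
    have hbk : 0 ≤ A k - (r k) ^ p := sub_nonneg.2 (hb0 k)
    have hΘk := hΘ0 k
    rcases le_or_gt (1 / 2) (r k) with h | h
    · obtain ⟨α, β, hαβ⟩ := hBD a ha0 ha4 (w k) h
      have h6 := Pool.Agent.H376.BV.one (S k) z (w k) (hS0 k) (hS1 k) (hSw k) α β hαβ
      have h7 : K1 * (A k - (r k) ^ p) ≤ (K1 + 8 + 18 * K2) * ((A k - (r k) ^ p) + Θ k) :=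
        mul_le_mul (by linarith) (by linarith) hbk (by positivity)
      exact h6.trans h7
    · have h6 : ‖∑ j, (S k j : ℂ) * chi p (z j)‖ ≤ 9 + 8 * A k := by
        have h7 : ∀ j ∈ Finset.univ, ‖(S k j : ℂ) * chi p (z j)‖ ≤
            S k j * 9 + 8 * (S k j * ‖z j - a‖ ^ p) := by
          intro j _
          rw [norm_mul, Complex.norm_real, Real.norm_of_nonneg (hS0 k j), norm_chi hp1]
          have h8 : ‖z j‖ ^ (p - 1) ≤ 1 + ‖z j‖ ^ p :=
            rpow_le_one_add (norm_nonneg _) (by linarith) (by linarith)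
          have h9 := norm_rpow_le hp0.le hp3 ha0 (by linarith) (z j)
          have h10 : ‖z j‖ ^ (p - 1) ≤ 9 + 8 * ‖z j - a‖ ^ p := by linarith
          calc S k j * ‖z j‖ ^ (p - 1) ≤ S k j * (9 + 8 * ‖z j - a‖ ^ p) :=
                mul_le_mul_of_nonneg_left h10 (hS0 k j)
            _ = S k j * 9 + 8 * (S k j * ‖z j - a‖ ^ p) := by ring
        refine (norm_sum_le_of_le _ h7).trans (le_of_eq ?_)
        rw [Finset.sum_add_distrib, ← Finset.sum_mul, hS1, one_mul, ← Finset.mul_sum]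
      have h7 : ‖chi p (w k)‖ ≤ 1 := by
        rw [norm_chi hp1]
        refine Real.rpow_le_one (norm_nonneg _) ?_ (by linarith)
        calc ‖w k‖ = ‖(w k - a) + a‖ := by rw [sub_add_cancel]
          _ ≤ ‖w k - a‖ + ‖(a : ℂ)‖ := norm_add_le _ _
          _ ≤ 1 := by
            rw [Complex.norm_real, Real.norm_of_nonneg ha0]
            have : ‖w k - a‖ < 1 / 2 := h
            linarith
      have h8 : (r k) ^ p ≤ 1 := Real.rpow_le_one (hr0 k).le (by linarith) hp0.le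
      have h9 : 1 ≤ K2 * Θ k := by
        refine le_trans ?_ (hΘ1 k h)
        rw [one_le_inv₀ (pow_pos (hr0 k) 2)]
        have := hr0 k
        nlinarith
      have h10 := norm_sub_le (∑ j, (S k j : ℂ) * chi p (z j)) (chi p (w k))
      have h11 : (K1 + 8 + 18 * K2) * ((A k - (r k) ^ p) + Θ k) =
          K1 * (A k - (r k) ^ p) + 8 * (A k - (r k) ^ p) + 18 * K2 * (A k - (r k) ^ p) +
          K1 * Θ k + 8 * Θ k + 18 * (K2 * Θ k) := by ring
      have h12 : 0 ≤ K1 * (A k - (r k) ^ p) := mul_nonneg hK1.le hbk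
      have h13 : 0 ≤ 18 * K2 * (A k - (r k) ^ p) := mul_nonneg (by positivity) hbk
      have h14 : 0 ≤ K1 * Θ k := mul_nonneg hK1.le hΘk
      rw [h11]
      linarith
  have e1 : ∑ k, chi p (w k) = -∑ k, (∑ j, (S k j : ℂ) * chi p (z j) - chi p (w k)) := by
    rw [Finset.sum_sub_distrib, hsumc]
    ring
  rw [e1, norm_neg]
  refine (norm_sum_le_of_le _ fun k _ => hD k).trans ?_
  rw [← Finset.mul_sum, Finset.sum_add_distrib]
  calc (K1 + 8 + 18 * K2) * (∑ k, (A k - (r k) ^ p) + ∑ k, Θ k)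
      ≤ (K1 + 8 + 18 * K2) * (9 * (m * a ^ 2)) :=
        mul_le_mul_of_nonneg_left htot (by positivity)
    _ = 9 * (K1 + 8 + 18 * K2) * (m * a ^ 2) := by ring

end Pool.Agent.H25.BV
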